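import Pool.Agent.UA.Leaf

/-!
Leaves of the case distinction on the small prime factors, evaluated in the kernel.
-/

namespace Pool.Agent.UA

theorem leaf4 : leafCheck 10000 77 15 143615 [14, 12, 11, 10, 7, 6, 5, 4, 3, 2] = true := by decide +kernel

theorem leaf5 : leafCheck 10000 7 165 128039 [14, 12, 9, 7, 6, 4, 3] = true := by decide +kernel

theorem leaf6 : leafCheck 10000 143 105 129317 [14, 12, 9, 8, 7, 5, 3, 2, 0] = true := by decide +kernel

end Pool.Agent.UA
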