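import Pool.Agent.UA.Leaf

/-!
Leaves of the case distinction on the small prime factors, evaluated in the kernel.
-/

namespace Pool.Agent.UA

theorem leaf7 : leafCheck 10000 11 1365 117779 [14, 11, 10, 5, 3, 1] = true := by decide +kernel

theorem leaf8 : leafCheck 10000 13 1155 115367 [14, 11, 9, 7, 4, 3] = true := by decide +kernel

theorem leaf9 : leafCheck 10000 1 15015 104795 [14, 9, 8, 7, 5, 4, 2, 1] = true := by decide +kernel

end Pool.Agent.UA
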