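import Pool.Agent.UA.Leaves1
import Pool.Agent.UA.Leaves2
import Pool.Agent.UA.Leaves3

/-!
The number of components is larger than `10000`.
-/

set_option linter.unusedSimpArgs false

namespace Pool.Agent.UA

theorem conf_card {S : Finset ℕ} {q : ℕ → ℕ} (hC : Conf S q) : 10000 < S.card := by
  by_cases h3 : 3 ∈ S
  ·
    exact leaf_bound hC (D := [3]) (E := [])
      (by simp only [List.mem_cons, List.not_mem_nil, or_false, forall_eq_or_imp, forall_eq,
        IsEmpty.forall_iff, implies_true, and_self, not_false_eq_true, h3])
      (by simp only [List.mem_cons, List.not_mem_nil, or_false, forall_eq_or_imp, forall_eq,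
        IsEmpty.forall_iff, implies_true, and_self, not_false_eq_true])
      (by norm_num) (by norm_num) (by norm_num) (by norm_num) _ leaf1
  ·
    by_cases h5 : 5 ∈ S
    ·
      by_cases h7 : 7 ∈ S
      ·
        exact leaf_bound hC (D := [5, 7]) (E := [3])
          (by simp only [List.mem_cons, List.not_mem_nil, or_false, forall_eq_or_imp, forall_eq,
            IsEmpty.forall_iff, implies_true, and_self, not_false_eq_true, h5, h7])
          (by simp only [List.mem_cons, List.not_mem_nil, or_false, forall_eq_or_imp, forall_eq,
            IsEmpty.forall_iff, implies_true, and_self, not_false_eq_true, h3] <;> norm_num)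
          (by norm_num) (by norm_num) (by norm_num) (by norm_num) _ leaf2
      ·
        exact leaf_bound hC (D := [5]) (E := [3, 7])
          (by simp only [List.mem_cons, List.not_mem_nil, or_false, forall_eq_or_imp, forall_eq,
            IsEmpty.forall_iff, implies_true, and_self, not_false_eq_true, h5])
          (by simp only [List.mem_cons, List.not_mem_nil, or_false, forall_eq_or_imp, forall_eq,
            IsEmpty.forall_iff, implies_true, and_self, not_false_eq_true, h3, h7] <;> norm_num)
          (by norm_num) (by norm_num) (by norm_num) (by norm_num) _ leaf3
    ·
      by_cases h7 : 7 ∈ S
      ·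
        by_cases h11 : 11 ∈ S
        ·
          exact leaf_bound hC (D := [7, 11]) (E := [3, 5])
            (by simp only [List.mem_cons, List.not_mem_nil, or_false, forall_eq_or_imp, forall_eq,
              IsEmpty.forall_iff, implies_true, and_self, not_false_eq_true, h7, h11])
            (by simp only [List.mem_cons, List.not_mem_nil, or_false, forall_eq_or_imp, forall_eq,
              IsEmpty.forall_iff, implies_true, and_self, not_false_eq_true, h3, h5] <;> norm_num)
            (by norm_num) (by norm_num) (by norm_num) (by norm_num) _ leaf4
        ·
          exact leaf_bound hC (D := [7]) (E := [3, 5, 11])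
            (by simp only [List.mem_cons, List.not_mem_nil, or_false, forall_eq_or_imp, forall_eq,
              IsEmpty.forall_iff, implies_true, and_self, not_false_eq_true, h7])
            (by simp only [List.mem_cons, List.not_mem_nil, or_false, forall_eq_or_imp, forall_eq,
              IsEmpty.forall_iff, implies_true, and_self, not_false_eq_true, h3, h5, h11] <;> norm_num)
            (by norm_num) (by norm_num) (by norm_num) (by norm_num) _ leaf5
      ·
        by_cases h11 : 11 ∈ S
        ·
          by_cases h13 : 13 ∈ S
          ·
            exact leaf_bound hC (D := [11, 13]) (E := [3, 5, 7])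
              (by simp only [List.mem_cons, List.not_mem_nil, or_false, forall_eq_or_imp, forall_eq,
                IsEmpty.forall_iff, implies_true, and_self, not_false_eq_true, h11, h13])
              (by simp only [List.mem_cons, List.not_mem_nil, or_false, forall_eq_or_imp, forall_eq,
                IsEmpty.forall_iff, implies_true, and_self, not_false_eq_true, h3, h5, h7] <;> norm_num)
              (by norm_num) (by norm_num) (by norm_num) (by norm_num) _ leaf6
          ·
            exact leaf_bound hC (D := [11]) (E := [3, 5, 7, 13])
              (by simp only [List.mem_cons, List.not_mem_nil, or_false, forall_eq_or_imp, forall_eq,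
                IsEmpty.forall_iff, implies_true, and_self, not_false_eq_true, h11])
              (by simp only [List.mem_cons, List.not_mem_nil, or_false, forall_eq_or_imp, forall_eq,
                IsEmpty.forall_iff, implies_true, and_self, not_false_eq_true, h3, h5, h7, h13] <;> norm_num)
              (by norm_num) (by norm_num) (by norm_num) (by norm_num) _ leaf7
        ·
          by_cases h13 : 13 ∈ S
          ·
            exact leaf_bound hC (D := [13]) (E := [3, 5, 7, 11])
              (by simp only [List.mem_cons, List.not_mem_nil, or_false, forall_eq_or_imp, forall_eq,
                IsEmpty.forall_iff, implies_true, and_self, not_false_eq_true, h13])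
              (by simp only [List.mem_cons, List.not_mem_nil, or_false, forall_eq_or_imp, forall_eq,
                IsEmpty.forall_iff, implies_true, and_self, not_false_eq_true, h3, h5, h7, h11] <;> norm_num)
              (by norm_num) (by norm_num) (by norm_num) (by norm_num) _ leaf8
          ·
            exact leaf_bound hC (D := []) (E := [3, 5, 7, 11, 13])
              (by simp only [List.mem_cons, List.not_mem_nil, or_false, forall_eq_or_imp, forall_eq,
                IsEmpty.forall_iff, implies_true, and_self, not_false_eq_true])
              (by simp only [List.mem_cons, List.not_mem_nil, or_false, forall_eq_or_imp, forall_eq,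
                IsEmpty.forall_iff, implies_true, and_self, not_false_eq_true, h3, h5, h7, h11, h13] <;> norm_num)
              (by norm_num) (by norm_num) (by norm_num) (by norm_num) _ leaf9

end Pool.Agent.UA
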