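import Mathlib.Tactic
import Mathlib.NumberTheory.Divisors
import Mathlib.Data.Nat.Factorization.Basic
import Mathlib.Data.Nat.Factorization.Defs
import Mathlib.Algebra.BigOperators.Ring.Finset

/-!
The sum of the unitary divisors and its product formula.
-/

namespace Pool.Agent.UA

/-- The sum of the unitary divisors of `n`. -/
def usigma (n : ℕ) : ℕ := ∑ d ∈ n.divisors with Nat.Coprime d (n / d), d

/-- the part of `n` supported on `s` -/
def part (n : ℕ) (s : Finset ℕ) : ℕ := ∏ p ∈ s, p ^ n.factorization p

theorem part_all {n : ℕ} (hn : n ≠ 0) : part n n.primeFactors = n := by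
  conv_rhs => rw [← Nat.prod_factorization_pow_eq_self hn]
  rfl

theorem part_mul {n : ℕ} (hn : n ≠ 0) {s : Finset ℕ} (hs : s ⊆ n.primeFactors) :
    part n s * part n (n.primeFactors \ s) = n := by
  have h := Finset.prod_union (f := fun p => p ^ n.factorization p)
    (Finset.disjoint_sdiff (s := s) (t := n.primeFactors))
  rw [Finset.union_sdiff_of_subset hs] at h
  unfold part
  rw [← h]
  exact part_all hn

theorem part_pos {n : ℕ} {s : Finset ℕ} (hs : s ⊆ n.primeFactors) : 0 < part n s :=
  Finset.prod_pos fun _ hp => pow_pos (Nat.prime_of_mem_primeFactors (hs hp)).pos _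

theorem part_coprime {n : ℕ} {s t : Finset ℕ} (hs : s ⊆ n.primeFactors)
    (ht : t ⊆ n.primeFactors) (hd : Disjoint s t) : Nat.Coprime (part n s) (part n t) := by
  unfold part
  refine Nat.Coprime.prod_left fun p hp => Nat.Coprime.prod_right fun q hq => ?_
  refine Nat.Coprime.pow _ _ ?_
  refine (Nat.coprime_primes (Nat.prime_of_mem_primeFactors (hs hp))
    (Nat.prime_of_mem_primeFactors (ht hq))).mpr ?_
  rintro rfl
  exact Finset.disjoint_left.mp hd hp hq

theorem part_primeFactors {n : ℕ} {s : Finset ℕ} (hs : s ⊆ n.primeFactors) :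
    (part n s).primeFactors = s := by
  ext p
  rw [Nat.mem_primeFactors]
  constructor
  · rintro ⟨hp, hd, _⟩
    unfold part at hd
    rw [hp.prime.dvd_finsetProd_iff] at hd
    obtain ⟨q, hq, hpq⟩ := hd
    have h1 := hp.dvd_of_dvd_pow hpq
    rw [Nat.prime_dvd_prime_iff_eq hp (Nat.prime_of_mem_primeFactors (hs hq))] at h1
    exact h1 ▸ hq
  · intro hp
    have hpn := hs hp
    have hpp := Nat.prime_of_mem_primeFactors hpn
    refine ⟨hpp, ?_, (part_pos hs).ne'⟩
    refine dvd_trans ?_ (Finset.dvd_prod_of_mem (fun p => p ^ n.factorization p) hp)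
    refine dvd_pow_self p ?_
    rw [← Finsupp.mem_support_iff, Nat.support_factorization]
    exact hpn

theorem usigma_eq {n : ℕ} (hn : n ≠ 0) :
    usigma n = ∏ p ∈ n.primeFactors, (1 + p ^ n.factorization p) := by
  rw [Finset.prod_one_add]
  unfold usigma
  symm
  refine Finset.sum_bij (fun s _ => part n s) ?_ ?_ ?_ ?_
  · intro s hs
    rw [Finset.mem_powerset] at hs
    rw [Finset.mem_filter, Nat.mem_divisors]
    have hm := part_mul hn hs
    refine ⟨⟨⟨_, hm.symm⟩, hn⟩, ?_⟩
    have : n / part n s = part n (n.primeFactors \ s) :=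
      Nat.div_eq_of_eq_mul_right (part_pos hs) hm.symm
    rw [this]
    exact part_coprime hs Finset.sdiff_subset Finset.disjoint_sdiff
  · intro s hs t ht h
    rw [Finset.mem_powerset] at hs ht
    have h1 := part_primeFactors hs
    have h2 := part_primeFactors ht
    rw [← h1, ← h2]
    exact congrArg Nat.primeFactors h
  · intro d hd
    rw [Finset.mem_filter, Nat.mem_divisors] at hd
    obtain ⟨⟨hdn, _⟩, hc⟩ := hd
    have hd0 : d ≠ 0 := ne_zero_of_dvd_ne_zero hn hdn
    refine ⟨d.primeFactors, Finset.mem_powerset.mpr (Nat.primeFactors_mono hdn hn), ?_⟩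
    conv_rhs => rw [← part_all hd0]
    unfold part
    refine Finset.prod_congr rfl fun p hp => ?_
    have hpp := Nat.prime_of_mem_primeFactors hp
    have hpd := Nat.dvd_of_mem_primeFactors hp
    congr 1
    obtain ⟨e, he⟩ := hdn
    have he' : n / d = e := by
      rw [he]; exact Nat.mul_div_cancel_left e (Nat.pos_of_ne_zero hd0)
    rw [he'] at hc
    have he0 : e ≠ 0 := by
      rintro rfl
      exact hn (by simpa using he)
    rw [he, Nat.factorization_mul hd0 he0, Finsupp.add_apply]
    have : e.factorization p = 0 := by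
      refine Nat.factorization_eq_zero_of_not_dvd fun hpe => ?_
      have := Nat.dvd_gcd hpd hpe
      rw [hc] at this
      exact hpp.one_lt.ne' (Nat.dvd_one.mp this)
    rw [this, add_zero]
  · intro s _
    rfl

end Pool.Agent.UA
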