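import Mathlib.Tactic
import Mathlib.Data.Nat.Prime.Basic
import Mathlib.Data.Nat.Factorization.Basic
import Mathlib.Data.Real.Basic
import Mathlib.Algebra.BigOperators.Group.Finset.Basic
import Mathlib.Algebra.Order.BigOperators.Ring.Finset

/-!
A small kernel-evaluated procedure that bounds products of `1 + 1/c` over the integers `c`
up to a limit which are coprime to given numbers, and counts these integers.
-/

namespace Pool.Agent.UA

/-- evaluate a natural number before passing it on -/
def force (n : ℕ) (f : ℕ → Bool) : Bool := Nat.rec (f 0) (fun k _ => f (Nat.succ k)) n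

theorem force_eq (n : ℕ) (f : ℕ → Bool) : force n f = f n := by
  cases n <;> rfl

theorem beqi (a b : ℕ) : a.beq b = true ↔ a = b :=
  ⟨Nat.eq_of_beq_eq_true, by rintro rfl; exact Nat.beq_refl a⟩

/-- process one candidate -/
def cand (M PD c acc cnt : ℕ) (k : ℕ → ℕ → Bool) : Bool :=
  bif (Nat.gcd c M).beq 1 && (Nat.gcd (Nat.succ c) PD).beq 1 then
    force (acc + acc / c + 1) fun a => force (cnt + 1) fun t => k a t
  else k acc cnt

/-- process `c` and `c + 2`, then go on from `c + 6` -/
def base (M PD c acc cnt : ℕ) (k : ℕ → ℕ → ℕ → Bool) : Bool :=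
  cand M PD c acc cnt fun a t =>
    force (c + 2) fun c' => cand M PD c' a t fun a' t' => force (c + 6) fun c'' => k c'' a' t'

/-- process `2 ^ n` blocks of length `6` -/
def run (M PD n : ℕ) : ℕ → ℕ → ℕ → (ℕ → ℕ → ℕ → Bool) → Bool :=
  Nat.rec (fun c a t k => base M PD c a t k)
    (fun _ ih c a t k => ih c a t (fun c' a' t' => ih c' a' t' k)) n

/-- the candidates in `[c, c')` -/
def cands (M PD c c' : ℕ) : Finset ℕ :=
  (Finset.Ico c c').filter fun x =>
    (x % 6 = 5 ∨ x % 6 = 1) ∧ Nat.gcd x M = 1 ∧ Nat.gcd (x + 1) PD = 1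

/-- the relation between two states of the procedure -/
structure Rel (M PD c a t c' a' t' : ℕ) : Prop where
  le : c ≤ c'
  md : c % 6 = 5 → c' % 6 = 5
  pr : ∀ P : ℝ, 0 ≤ P → P ≤ a → P * ∏ x ∈ cands M PD c c', (1 + 1 / (x : ℝ)) ≤ a'
  cn : t' = t + (cands M PD c c').card

theorem cands_union (M PD : ℕ) {c c' c'' : ℕ} (h : c ≤ c') (h' : c' ≤ c'') :
    cands M PD c c'' = cands M PD c c' ∪ cands M PD c' c'' := by
  unfold cands
  rw [← Finset.filter_union, Finset.Ico_union_Ico_eq_Ico h h']

theorem cands_disj (M PD : ℕ) (c c' c'' : ℕ) :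
    Disjoint (cands M PD c c') (cands M PD c' c'') := by
  unfold cands
  exact Finset.disjoint_filter_filter (Finset.Ico_disjoint_Ico_consecutive c c' c'')

theorem Rel.trans {M PD c a t c' a' t' c'' a'' t'' : ℕ} (h : Rel M PD c a t c' a' t')
    (h' : Rel M PD c' a' t' c'' a'' t'') : Rel M PD c a t c'' a'' t'' where
  le := h.le.trans h'.le
  md := fun hc => h'.md (h.md hc)
  pr := by
    intro P hP hPa
    rw [cands_union M PD h.le h'.le, Finset.prod_union (cands_disj M PD c c' c''), ← mul_assoc]
    refine h'.pr _ ?_ (h.pr P hP hPa)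
    exact mul_nonneg hP (Finset.prod_nonneg fun x _ => by positivity)
  cn := by
    rw [cands_union M PD h.le h'.le, Finset.card_union_of_disjoint (cands_disj M PD c c' c''),
      h'.cn, h.cn, add_assoc]

/-- the basic real inequality behind the scaled accumulators -/
theorem acc_step {P : ℝ} {a c : ℕ} (hP : 0 ≤ P) (hPa : P ≤ a) (hc : 0 < c) :
    P * (1 + 1 / (c : ℝ)) ≤ ((a + a / c + 1 : ℕ) : ℝ) := by
  have hc' : (0 : ℝ) < c := by exact_mod_cast hc
  have h1 : (a : ℝ) / c ≤ ((a / c : ℕ) : ℝ) + 1 := by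
    have h := Nat.lt_div_mul_add hc (a := a)
    rw [div_le_iff₀ hc']
    have h2 : (a : ℝ) < ((a / c : ℕ) : ℝ) * c + c := by exact_mod_cast h
    nlinarith
  have h3 : P / c ≤ a / c := by gcongr
  have e : P * (1 + 1 / (c : ℝ)) = P + P / c := by ring
  rw [e]
  push_cast
  linarith

theorem cand_spec {M PD c acc cnt : ℕ} {k : ℕ → ℕ → Bool} (h : cand M PD c acc cnt k = true) :
    (¬ (Nat.gcd c M = 1 ∧ Nat.gcd (c + 1) PD = 1) ∧ k acc cnt = true) ∨
    ((Nat.gcd c M = 1 ∧ Nat.gcd (c + 1) PD = 1) ∧ k (acc + acc / c + 1) (cnt + 1) = true) := by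
  unfold cand at h
  simp only [force_eq] at h
  by_cases hg : (Nat.gcd c M).beq 1 && (Nat.gcd (Nat.succ c) PD).beq 1
  · right
    rw [hg, cond_true] at h
    rw [Bool.and_eq_true, beqi, beqi] at hg
    exact ⟨hg, h⟩
  · left
    rw [Bool.not_eq_true] at hg
    rw [hg, cond_false] at h
    refine ⟨?_, h⟩
    rintro ⟨h1, h2⟩
    have : ((Nat.gcd c M).beq 1 && (Nat.gcd (Nat.succ c) PD).beq 1) = true := by
      rw [Bool.and_eq_true, beqi, beqi]
      exact ⟨h1, h2⟩
    rw [this] at hg
    exact absurd hg (by decide)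

/-- Relation for a single position, with arbitrary end. -/
theorem single_rel {M PD c a t : ℕ} {k : ℕ → ℕ → Bool} (hc : 0 < c)
    (hm : c % 6 = 5 ∨ c % 6 = 1) (h : cand M PD c a t k = true) :
    ∃ a' t', k a' t' = true ∧
      (∀ P : ℝ, 0 ≤ P → P ≤ a → P * ∏ x ∈ cands M PD c (c + 1), (1 + 1 / (x : ℝ)) ≤ a') ∧
      t' = t + (cands M PD c (c + 1)).card := by
  have hI : Finset.Ico c (c + 1) = {c} := by
    ext x; simp only [Finset.mem_Ico, Finset.mem_singleton]; omega
  rcases cand_spec h with ⟨hn, hk⟩ | ⟨hy, hk⟩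
  · refine ⟨a, t, hk, ?_, ?_⟩
    · have e : cands M PD c (c + 1) = ∅ := by
        unfold cands
        rw [hI, Finset.filter_singleton, if_neg]
        rintro ⟨_, h1⟩
        exact hn h1
      intro P hP hPa
      rw [e, Finset.prod_empty, mul_one]
      exact hPa
    · have e : cands M PD c (c + 1) = ∅ := by
        unfold cands
        rw [hI, Finset.filter_singleton, if_neg]
        rintro ⟨_, h1⟩
        exact hn h1
      rw [e, Finset.card_empty, add_zero]
  · have e : cands M PD c (c + 1) = {c} := by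
      unfold cands
      rw [hI, Finset.filter_singleton, if_pos]
      exact ⟨hm, hy⟩
    refine ⟨_, _, hk, ?_, ?_⟩
    · intro P hP hPa
      rw [e, Finset.prod_singleton]
      exact acc_step hP hPa hc
    · rw [e, Finset.card_singleton]

theorem cands_empty_gap (M PD c c' : ℕ)
    (h : ∀ x, c ≤ x → x < c' → ¬ (x % 6 = 5 ∨ x % 6 = 1)) : cands M PD c c' = ∅ := by
  unfold cands
  rw [Finset.filter_eq_empty_iff]
  intro x hx hp
  rw [Finset.mem_Ico] at hx
  exact h x hx.1 hx.2 hp.1

theorem base_rel {M PD c a t : ℕ} {k : ℕ → ℕ → ℕ → Bool} (hc : c % 6 = 5)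
    (h : base M PD c a t k = true) :
    ∃ a' t', k (c + 6) a' t' = true ∧ Rel M PD c a t (c + 6) a' t' := by
  unfold base at h
  simp only [force_eq] at h
  obtain ⟨a1, t1, h1, p1, q1⟩ := single_rel (by omega) (Or.inl hc) h
  obtain ⟨a2, t2, h2, p2, q2⟩ := single_rel (by omega) (Or.inr (by omega)) h1
  have d1 : cands M PD c (c + 2) = cands M PD c (c + 1) := by
    rw [cands_union M PD (c := c) (c' := c + 1) (c'' := c + 2) (by omega) (by omega),
      cands_empty_gap M PD (c + 1) (c + 2) (by intro x hx hx'; omega), Finset.union_empty]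
  have d2 : cands M PD (c + 2) (c + 6) = cands M PD (c + 2) (c + 2 + 1) := by
    rw [cands_union M PD (c := c + 2) (c' := c + 2 + 1) (c'' := c + 6) (by omega) (by omega),
      cands_empty_gap M PD (c + 2 + 1) (c + 6) (by intro x hx hx'; omega), Finset.union_empty]
  refine ⟨a2, t2, h2, ?_, ?_, ?_, ?_⟩
  · omega
  · intro _; omega
  · intro P hP hPa
    rw [cands_union M PD (c := c) (c' := c + 2) (c'' := c + 6) (by omega) (by omega),
      Finset.prod_union (cands_disj M PD c (c + 2) (c + 6)), ← mul_assoc, d1, d2]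
    refine p2 _ ?_ (p1 P hP hPa)
    exact mul_nonneg hP (Finset.prod_nonneg fun x _ => by positivity)
  · rw [cands_union M PD (c := c) (c' := c + 2) (c'' := c + 6) (by omega) (by omega),
      Finset.card_union_of_disjoint (cands_disj M PD c (c + 2) (c + 6)), d1, d2, q2, q1, add_assoc]

theorem run_zero (M PD c a t : ℕ) (k : ℕ → ℕ → ℕ → Bool) :
    run M PD 0 c a t k = base M PD c a t k := rfl

theorem run_succ (M PD n c a t : ℕ) (k : ℕ → ℕ → ℕ → Bool) :
    run M PD (n + 1) c a t k = run M PD n c a t (fun c' a' t' => run M PD n c' a' t' k) := rfl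

theorem run_rel {M PD : ℕ} : ∀ (n : ℕ) {c a t : ℕ} {k : ℕ → ℕ → ℕ → Bool}, c % 6 = 5 →
    run M PD n c a t k = true →
    ∃ a' t', k (c + 6 * 2 ^ n) a' t' = true ∧ Rel M PD c a t (c + 6 * 2 ^ n) a' t'
  | 0, c, a, t, k, hc, h => by
    rw [run_zero] at h
    simpa using base_rel hc h
  | n + 1, c, a, t, k, hc, h => by
    rw [run_succ] at h
    obtain ⟨a1, t1, h1, r1⟩ := run_rel n hc h
    obtain ⟨a2, t2, h2, r2⟩ := run_rel n (r1.md hc) h1
    have e : c + 6 * 2 ^ n + 6 * 2 ^ n = c + 6 * 2 ^ (n + 1) := by ring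
    rw [e] at h2 r2
    exact ⟨a2, t2, h2, r1.trans r2⟩

/-- several runs in a row -/
def runs (M PD : ℕ) : List ℕ → ℕ → ℕ → ℕ → (ℕ → ℕ → ℕ → Bool) → Bool
  | [], c, a, t, k => k c a t
  | n :: l, c, a, t, k => run M PD n c a t fun c' a' t' => runs M PD l c' a' t' k

/-- total number of blocks -/
def blocks : List ℕ → ℕ
  | [] => 0
  | n :: l => 2 ^ n + blocks l

theorem Rel.refl (M PD c a t : ℕ) : Rel M PD c a t c a t where
  le := le_rfl
  md := id
  pr := by
    intro P _ hPa
    have e : cands M PD c c = ∅ := by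
      unfold cands; rw [Finset.Ico_self, Finset.filter_empty]
    rw [e, Finset.prod_empty, mul_one]
    exact hPa
  cn := by
    have e : cands M PD c c = ∅ := by
      unfold cands; rw [Finset.Ico_self, Finset.filter_empty]
    rw [e, Finset.card_empty, add_zero]

theorem runs_rel {M PD : ℕ} : ∀ (l : List ℕ) {c a t : ℕ} {k : ℕ → ℕ → ℕ → Bool}, c % 6 = 5 →
    runs M PD l c a t k = true →
    ∃ a' t', k (c + 6 * blocks l) a' t' = true ∧ Rel M PD c a t (c + 6 * blocks l) a' t'
  | [], c, a, t, k, hc, h => by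
    refine ⟨a, t, by simpa [blocks, runs] using h, by simpa [blocks] using Rel.refl M PD c a t⟩
  | n :: l, c, a, t, k, hc, h => by
    unfold runs at h
    obtain ⟨a1, t1, h1, r1⟩ := run_rel n hc h
    obtain ⟨a2, t2, h2, r2⟩ := runs_rel l (r1.md hc) h1
    have e : c + 6 * 2 ^ n + 6 * blocks l = c + 6 * blocks (n :: l) := by
      rw [show blocks (n :: l) = 2 ^ n + blocks l from rfl]; ring
    rw [e] at h2 r2
    exact ⟨a2, t2, h2, r1.trans r2⟩

/-- the value used for a base `x`: `x` itself if allowed, else its square -/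
def vv (PD x : ℕ) : ℕ := if Nat.gcd (x + 1) PD = 1 then x else x * x

/-- the small primes kept -/
def keep (PD PE X x : ℕ) : Prop :=
  Nat.gcd x PE = 1 ∧ (Nat.gcd (x + 1) PD = 1 ∨ x * x ≤ X)

instance (PD PE X x : ℕ) : Decidable (keep PD PE X x) := by unfold keep; infer_instance

/-- the pass over the small primes -/
def small (PD PE X : ℕ) : List ℕ → ℕ → ℕ → (ℕ → ℕ → Bool) → Bool
  | [], a, t, k => k a t
  | p :: l, a, t, k =>
    bif (Nat.gcd p PE).beq 1 then
      bif (Nat.gcd (Nat.succ p) PD).beq 1 then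
        force (a + a / p + 1) fun a' => force (t + 1) fun t' => small PD PE X l a' t' k
      else bif Nat.ble (p * p) X then
        force (a + a / (p * p) + 1) fun a' => force (t + 1) fun t' => small PD PE X l a' t' k
      else small PD PE X l a t k
    else small PD PE X l a t k

theorem small_rel {PD PE X : ℕ} : ∀ (l : List ℕ) {a t : ℕ} {k : ℕ → ℕ → Bool}, l.Nodup →
    (∀ x ∈ l, 0 < x) → small PD PE X l a t k = true →
    ∃ a' t', k a' t' = true ∧
      (∀ P : ℝ, 0 ≤ P → P ≤ a →
        P * ∏ x ∈ l.toFinset.filter (keep PD PE X), (1 + 1 / (vv PD x : ℝ)) ≤ a') ∧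
      t' = t + (l.toFinset.filter (keep PD PE X)).card
  | [], a, t, k, _, _, h => by
    refine ⟨a, t, h, ?_, ?_⟩
    · intro P _ hPa
      simpa using hPa
    · simp
  | p :: l, a, t, k, hnd, hpos, h => by
    have hp0 : 0 < p := hpos p (by simp)
    have hnd' : l.Nodup := (List.nodup_cons.mp hnd).2
    have hpl : p ∉ l := (List.nodup_cons.mp hnd).1
    have hpos' : ∀ x ∈ l, 0 < x := fun x hx => hpos x (by simp [hx])
    have hnotin : p ∉ l.toFinset.filter (keep PD PE X) := by
      simp [hpl]
    have skip : ¬ keep PD PE X p → (p :: l).toFinset.filter (keep PD PE X) =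
        l.toFinset.filter (keep PD PE X) := by
      intro hk
      rw [List.toFinset_cons, Finset.filter_insert, if_neg hk]
    have take : keep PD PE X p → (p :: l).toFinset.filter (keep PD PE X) =
        insert p (l.toFinset.filter (keep PD PE X)) := by
      intro hk
      rw [List.toFinset_cons, Finset.filter_insert, if_pos hk]
    unfold small at h
    simp only [force_eq] at h
    by_cases h1 : Nat.gcd p PE = 1
    · have h1' : (Nat.gcd p PE).beq 1 = true := by rw [beqi]; exact h1
      rw [h1', cond_true] at h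
      by_cases h2 : Nat.gcd (p + 1) PD = 1
      · have h2' : (Nat.gcd (Nat.succ p) PD).beq 1 = true := by
          rw [beqi]; exact h2
        rw [h2', cond_true] at h
        obtain ⟨a', t', hk, hp, hc⟩ := small_rel l hnd' hpos' h
        have hkeep : keep PD PE X p := ⟨h1, Or.inl h2⟩
        refine ⟨a', t', hk, ?_, ?_⟩
        · intro P hP hPa
          rw [take hkeep, Finset.prod_insert hnotin, ← mul_assoc]
          refine hp _ (mul_nonneg hP (by positivity)) ?_
          have hv : vv PD p = p := if_pos h2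
          rw [hv]
          exact acc_step hP hPa hp0
        · rw [take hkeep, Finset.card_insert_of_notMem hnotin, hc]; ring
      · have h2' : (Nat.gcd (Nat.succ p) PD).beq 1 = false := by
          rw [← Bool.not_eq_true, beqi]; exact h2
        rw [h2', cond_false] at h
        by_cases h3 : p * p ≤ X
        · have h3' : Nat.ble (p * p) X = true := Nat.ble_eq.mpr h3
          rw [h3', cond_true] at h
          obtain ⟨a', t', hk, hp, hc⟩ := small_rel l hnd' hpos' h
          have hkeep : keep PD PE X p := ⟨h1, Or.inr h3⟩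
          refine ⟨a', t', hk, ?_, ?_⟩
          · intro P hP hPa
            rw [take hkeep, Finset.prod_insert hnotin, ← mul_assoc]
            refine hp _ (mul_nonneg hP (by positivity)) ?_
            have hv : vv PD p = p * p := if_neg h2
            rw [hv]
            exact acc_step hP hPa (Nat.mul_pos hp0 hp0)
          · rw [take hkeep, Finset.card_insert_of_notMem hnotin, hc]; ring
        · have h3' : Nat.ble (p * p) X = false := by
            rw [← Bool.not_eq_true, Nat.ble_eq]; exact h3
          rw [h3', cond_false] at h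
          obtain ⟨a', t', hk, hp, hc⟩ := small_rel l hnd' hpos' h
          have hkeep : ¬ keep PD PE X p := by
            rintro ⟨_, h4 | h4⟩
            · exact h2 h4
            · exact h3 h4
          refine ⟨a', t', hk, ?_, ?_⟩
          · rw [skip hkeep]; exact hp
          · rw [skip hkeep]; exact hc
    · have h1' : (Nat.gcd p PE).beq 1 = false := by
        rw [← Bool.not_eq_true, beqi]; exact h1
      rw [h1', cond_false] at h
      obtain ⟨a', t', hk, hp, hc⟩ := small_rel l hnd' hpos' h
      have hkeep : ¬ keep PD PE X p := by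
        rintro ⟨h4, _⟩
        exact h1 h4
      refine ⟨a', t', hk, ?_, ?_⟩
      · rw [skip hkeep]; exact hp
      · rw [skip hkeep]; exact hc

end Pool.Agent.UA
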