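import Pool.Agent.UA.Kernel

/-!
From a positive answer of the procedure to a lower bound for the number of components.
-/

namespace Pool.Agent.UA

/-- the odd primes below `791` -/
def SP : List ℕ := [3, 5, 7, 11, 13, 17, 19, 23, 29, 31, 37, 41, 43, 47, 53, 59, 61, 67, 71, 73, 79, 83, 89, 97, 101, 103, 107, 109, 113, 127, 131, 137, 139, 149, 151, 157, 163, 167, 173, 179, 181, 191, 193, 197, 199, 211, 223, 227, 229, 233, 239, 241, 251, 257, 263, 269, 271, 277, 281, 283, 293, 307, 311, 313, 317, 331, 337, 347, 349, 353, 359, 367, 373, 379, 383, 389, 397, 401, 409, 419, 421, 431, 433, 439, 443, 449, 457, 461, 463, 467, 479, 487, 491, 499, 503, 509, 521, 523, 541, 547, 557, 563, 569, 571, 577, 587, 593, 599, 601, 607, 613, 617, 619, 631, 641, 643, 647, 653, 659, 661, 673, 677, 683, 691, 701, 709, 719, 727, 733, 739, 743, 751, 757, 761, 769, 773, 787]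

/-- product of the primes from `5` to `787` -/
def MM : ℕ := 97951891612553350498233407467120685870847065093385956105821673546212532632321132841226248554518410443032554081007934500607550182160848742735432628058905140560902177636447152980550714263847111889447834927202819731633352064401247401076771818949802423938197685983107038580273546591096159599572608015276202114772209719356325842705

theorem MM_eq : MM = SP.tail.prod := by decide +kernel

theorem SP_aux : ∀ p, p < 791 → p < 2 ∨ p = 2 ∨ p ∈ SP ∨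
    ∃ d ∈ [2, 3, 5, 7, 11, 13, 17, 19, 23], d < p ∧ p % d = 0 := by
  decide +kernel

theorem SP_prime (p : ℕ) (h : p < 791) (hp : p.Prime) : p = 2 ∨ p ∈ SP := by
  rcases SP_aux p h with h1 | h1 | h1 | ⟨d, hd, hdp, h0⟩
  · exact absurd hp.two_le (by omega)
  · exact Or.inl h1
  · exact Or.inr h1
  · exfalso
    have hd2 : 2 ≤ d := by
      simp only [List.mem_cons, List.not_mem_nil, or_false] at hd
      omega
    rcases (Nat.dvd_prime hp).mp (Nat.dvd_of_mod_eq_zero h0) with h2 | h2 <;> omega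

theorem SP_nodup : SP.Nodup := by decide +kernel

theorem SP_bound : ∀ x ∈ SP, 2 < x ∧ x < 791 := by decide +kernel

/-- the complete test of one leaf -/
def leafCheck (T PD PE X : ℕ) (l : List ℕ) : Bool :=
  small PD PE X SP 18446744073709551616 0 fun a t => runs MM PD l 791 a t fun c a t =>
    Nat.beq c X && (Nat.ble a 73786976294838206464 && Nat.ble T t)

/-- the data attached to a hypothetical pair -/
structure Conf (S : Finset ℕ) (q : ℕ → ℕ) : Prop where
  prime : ∀ p ∈ S, p.Prime
  odd : 2 ∉ S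
  pow : ∀ p ∈ S, ∃ a, 1 ≤ a ∧ q p = p ^ a
  cop : ∀ d ∈ S, ∀ p ∈ S, ¬ d ∣ q p + 1
  big : 4 < ∏ p ∈ S, (1 + 1 / (q p : ℝ))

theorem gcd_MM {p : ℕ} (hp : p.Prime) (h : 791 ≤ p) : Nat.gcd p MM = 1 := by
  rw [MM_eq]
  refine (Nat.Prime.coprime_iff_not_dvd hp).mpr fun hd => ?_
  rw [hp.prime.dvd_prod_iff] at hd
  obtain ⟨a, ha, hpa⟩ := hd
  have ha' : a ∈ SP := List.mem_of_mem_tail ha
  have := SP_bound a ha'
  have := Nat.le_of_dvd (by omega) hpa
  omega

theorem gcd_list {x : ℕ} (D : List ℕ) (h : ∀ d ∈ D, d.Prime ∧ ¬ d ∣ x) : Nat.gcd x D.prod = 1 := by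
  induction D with
  | nil => simp
  | cons d D ih =>
    rw [List.prod_cons]
    refine Nat.Coprime.mul_right ?_ (ih fun e he => h e (by simp [he]))
    obtain ⟨hd, hdx⟩ := h d (by simp)
    exact ((Nat.Prime.coprime_iff_not_dvd hd).mpr hdx).symm

theorem gcd_single {p d : ℕ} (hp : p.Prime) (hd : d.Prime) (h : p ≠ d) : ¬ d ∣ p := by
  intro hdp
  exact h ((Nat.prime_dvd_prime_iff_eq hd hp).mp hdp).symm

theorem leaf_bound {S : Finset ℕ} {q : ℕ → ℕ} (hC : Conf S q) {D E : List ℕ}
    (hD : ∀ d ∈ D, d ∈ S) (hE : ∀ e ∈ E, e.Prime ∧ e ∉ S) {T PD PE X : ℕ} (hPD : D.prod = PD)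
    (hPE : E.prod = PE) (hX : X ≤ 625681) (hX' : 791 ≤ X) (l : List ℕ)
    (h : leafCheck T PD PE X l = true) : T < S.card := by
  unfold leafCheck at h
  obtain ⟨a1, t1, h1, p1, c1⟩ := small_rel SP SP_nodup
    (fun x hx => by have := SP_bound x hx; omega) h
  obtain ⟨a2, t2, h2, r2⟩ := runs_rel l (by norm_num) h1
  rw [Bool.and_eq_true, Bool.and_eq_true, beqi, Nat.ble_eq, Nat.ble_eq] at h2
  obtain ⟨hXe, ha2, hT⟩ := h2
  rw [hXe] at r2
  -- the two parts of the comparison set
  have r2p := r2.pr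
  have r2c := r2.cn
  clear r2
  obtain ⟨A1, hA1⟩ : ∃ A1 : Finset ℕ, A1 = SP.toFinset.filter (keep PD PE X) := ⟨_, rfl⟩
  obtain ⟨A2, hA2⟩ : ∃ A2 : Finset ℕ, A2 = cands MM PD 791 X := ⟨_, rfl⟩
  rw [← hA1] at p1 c1
  rw [← hA2] at r2p r2c
  have hA1lt : ∀ x ∈ A1, 2 < x ∧ x < 791 := by
    intro x hx
    rw [hA1, Finset.mem_filter, List.mem_toFinset] at hx
    exact SP_bound x hx.1
  have hA2ge : ∀ x ∈ A2, 791 ≤ x ∧ x < X ∧ Nat.gcd (x + 1) PD = 1 := by
    intro x hx
    rw [hA2] at hx
    unfold cands at hx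
    rw [Finset.mem_filter, Finset.mem_Ico] at hx
    exact ⟨hx.1.1, hx.1.2, hx.2.2.2⟩
  have hdisj : Disjoint A1 A2 := by
    rw [Finset.disjoint_left]
    intro x h1 h2
    have := hA1lt x h1
    have := hA2ge x h2
    omega
  obtain ⟨A, hA⟩ : ∃ A : Finset ℕ, A = A1 ∪ A2 := ⟨_, rfl⟩
  have hXpos : (0 : ℝ) < X := by
    have : (0 : ℕ) < X := by omega
    exact_mod_cast this
  -- total product and count
  have hprod : ∏ x ∈ A, (1 + 1 / (vv PD x : ℝ)) ≤ 4 := by
    rw [hA, Finset.prod_union hdisj]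
    have e2 : ∏ x ∈ A2, (1 + 1 / (vv PD x : ℝ)) = ∏ x ∈ A2, (1 + 1 / (x : ℝ)) := by
      refine Finset.prod_congr rfl fun x hx => ?_
      rw [show vv PD x = x from if_pos (hA2ge x hx).2.2]
    rw [e2]
    have b1 := p1 18446744073709551616 (by norm_num) (by norm_num)
    have b2 := r2p _ (mul_nonneg (by norm_num : (0 : ℝ) ≤ 18446744073709551616)
      (Finset.prod_nonneg fun x _ => by positivity)) b1
    have b3 : (a2 : ℝ) ≤ 73786976294838206464 := by exact_mod_cast ha2
    have b4 : (18446744073709551616 : ℝ) * ((∏ x ∈ A1, (1 + 1 / (vv PD x : ℝ))) *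
        ∏ x ∈ A2, (1 + 1 / (x : ℝ))) ≤ 73786976294838206464 := by
      rw [← mul_assoc]
      exact b2.trans b3
    linarith
  have hcard : T ≤ A.card := by
    rw [hA, Finset.card_union_of_disjoint hdisj]
    omega
  -- weights of `A`
  have hwA : ∀ x ∈ A, 1 + 1 / (X : ℝ) ≤ 1 + 1 / (vv PD x : ℝ) := by
    intro x hx
    have hv : 0 < vv PD x ∧ vv PD x ≤ X := by
      rw [hA, Finset.mem_union] at hx
      rcases hx with hx | hx
      · have hx0 := hA1lt x hx
        rw [hA1, Finset.mem_filter] at hx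
        obtain ⟨_, _, hk⟩ := hx
        unfold vv
        split_ifs with hg
        · omega
        · rcases hk with hk | hk
          · exact absurd hk hg
          · exact ⟨Nat.mul_pos (by omega) (by omega), hk⟩
      · have hx0 := hA2ge x hx
        rw [show vv PD x = x from if_pos hx0.2.2]
        omega
    have h1 : (0 : ℝ) < vv PD x := by exact_mod_cast hv.1
    have h2 : (vv PD x : ℝ) ≤ X := by exact_mod_cast hv.2
    gcongr
  -- components
  have hq : ∀ p ∈ S, 0 < q p := by
    intro p hp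
    obtain ⟨a, _, ha⟩ := hC.pow p hp
    rw [ha]
    exact pow_pos (hC.prime p hp).pos a
  have hgcd : ∀ p ∈ S, Nat.gcd (q p + 1) PD = 1 := by
    intro p hp
    rw [← hPD]
    exact gcd_list D fun d hd => ⟨hC.prime d (hD d hd), hC.cop d (hD d hd) p hp⟩
  have hvq : ∀ p ∈ S, vv PD p ≤ q p := by
    intro p hp
    obtain ⟨a, ha1, ha⟩ := hC.pow p hp
    have hp2 := (hC.prime p hp).two_le
    unfold vv
    split_ifs with hg
    · rw [ha]
      calc p = p ^ 1 := (pow_one p).symm
        _ ≤ p ^ a := Nat.pow_le_pow_right (by omega) ha1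
    · have ha2 : 2 ≤ a := by
        by_contra hlt
        have : a = 1 := by omega
        rw [this, pow_one] at ha
        have := hgcd p hp
        rw [ha] at this
        exact hg this
      rw [ha]
      calc p * p = p ^ 2 := (sq p).symm
        _ ≤ p ^ a := Nat.pow_le_pow_right (by omega) ha2
  have hout : ∀ p ∈ S, p ∉ A → X ≤ q p := by
    intro p hp hpA
    obtain ⟨a, ha1, ha⟩ := hC.pow p hp
    have hpp := hC.prime p hp
    have hp2 : p ≠ 2 := fun h => hC.odd (h ▸ hp)
    rw [hA, Finset.mem_union, not_or] at hpA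
    rcases lt_or_ge p 791 with hlt | hge
    · -- small prime
      have hpSP : p ∈ SP := by
        rcases SP_prime p hlt hpp with h | h
        · exact absurd h hp2
        · exact h
      have hk : ¬ keep PD PE X p := by
        intro hk
        apply hpA.1
        rw [hA1, Finset.mem_filter, List.mem_toFinset]
        exact ⟨hpSP, hk⟩
      have hPEp : Nat.gcd p PE = 1 := by
        rw [← hPE]
        exact gcd_list E fun e he =>
          ⟨(hE e he).1, gcd_single hpp (hE e he).1 fun h => (hE e he).2 (h ▸ hp)⟩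
      unfold keep at hk
      rw [not_and, not_or] at hk
      obtain ⟨hg, hXX⟩ := hk hPEp
      have := hvq p hp
      unfold vv at this
      rw [if_neg hg] at this
      omega
    · -- large prime
      rcases Nat.lt_or_ge 1 a with h1a | h1a
      · rw [ha]
        calc X ≤ 791 ^ 2 := by norm_num; exact hX
          _ ≤ p ^ 2 := Nat.pow_le_pow_left hge 2
          _ ≤ p ^ a := Nat.pow_le_pow_right (by omega) h1a
      · have ha' : a = 1 := by omega
        rw [ha', pow_one] at ha
        rw [ha]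
        by_contra hpX
        rw [not_le] at hpX
        apply hpA.2
        rw [hA2]
        unfold cands
        rw [Finset.mem_filter, Finset.mem_Ico]
        refine ⟨⟨hge, hpX⟩, ?_, gcd_MM hpp hge, ?_⟩
        · have n2 : ¬ 2 ∣ p := gcd_single hpp Nat.prime_two hp2
          have n3 : ¬ 3 ∣ p := gcd_single hpp Nat.prime_three (by omega)
          omega
        · have := hgcd p hp
          rw [ha] at this
          exact this
  -- the comparison
  by_contra hTS
  rw [not_lt] at hTS
  have hSA : S.card ≤ A.card := hTS.trans hcard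
  have hsplit : ∏ p ∈ S, (1 + 1 / (q p : ℝ)) =
      (∏ p ∈ S ∩ A, (1 + 1 / (q p : ℝ))) * ∏ p ∈ S \ A, (1 + 1 / (q p : ℝ)) := by
    rw [← Finset.prod_union (Finset.disjoint_sdiff_inter S A).symm, Finset.union_comm,
      Finset.sdiff_union_inter]
  have hsplitA : ∏ x ∈ A, (1 + 1 / (vv PD x : ℝ)) =
      (∏ p ∈ S ∩ A, (1 + 1 / (vv PD p : ℝ))) * ∏ x ∈ A \ S, (1 + 1 / (vv PD x : ℝ)) := by
    rw [Finset.inter_comm, ← Finset.prod_union (Finset.disjoint_sdiff_inter A S).symm,
      Finset.union_comm, Finset.sdiff_union_inter]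
  have b1 : ∏ p ∈ S ∩ A, (1 + 1 / (q p : ℝ)) ≤ ∏ p ∈ S ∩ A, (1 + 1 / (vv PD p : ℝ)) := by
    refine Finset.prod_le_prod (fun p _ => by positivity) fun p hp => ?_
    rw [Finset.mem_inter] at hp
    have h1 : 0 < vv PD p := by
      have := (hC.prime p hp.1).pos
      unfold vv
      split_ifs
      · exact this
      · exact Nat.mul_pos this this
    have h2 : (0 : ℝ) < vv PD p := by exact_mod_cast h1
    have h3 : (vv PD p : ℝ) ≤ q p := by exact_mod_cast hvq p hp.1
    gcongr
  have b2 : ∏ p ∈ S \ A, (1 + 1 / (q p : ℝ)) ≤ (1 + 1 / (X : ℝ)) ^ (S \ A).card := by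
    rw [← Finset.prod_const]
    refine Finset.prod_le_prod (fun p _ => by positivity) fun p hp => ?_
    rw [Finset.mem_sdiff] at hp
    have h3 : (X : ℝ) ≤ q p := by exact_mod_cast hout p hp.1 hp.2
    gcongr
  have b3 : (1 + 1 / (X : ℝ)) ^ (A \ S).card ≤ ∏ x ∈ A \ S, (1 + 1 / (vv PD x : ℝ)) := by
    rw [← Finset.prod_const]
    refine Finset.prod_le_prod (fun p _ => by positivity) fun x hx => ?_
    rw [Finset.mem_sdiff] at hx
    exact hwA x hx.1
  have hc : (S \ A).card ≤ (A \ S).card := by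
    have h1 := Finset.card_sdiff_add_card_inter S A
    have h2 := Finset.card_sdiff_add_card_inter A S
    rw [Finset.inter_comm A S] at h2
    omega
  have b4 : (1 + 1 / (X : ℝ)) ^ (S \ A).card ≤ (1 + 1 / (X : ℝ)) ^ (A \ S).card := by
    refine pow_le_pow_right₀ ?_ hc
    have : (0 : ℝ) ≤ 1 / X := by positivity
    linarith
  have hfin : ∏ p ∈ S, (1 + 1 / (q p : ℝ)) ≤ 4 := by
    rw [hsplit]
    refine le_trans ?_ hprod
    rw [hsplitA]
    refine mul_le_mul b1 (b2.trans (b4.trans b3)) (Finset.prod_nonneg fun p _ => by positivity)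
      (Finset.prod_nonneg fun p _ => by positivity)
  exact absurd hC.big (not_lt.mpr hfin)

end Pool.Agent.UA
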