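import Pool.Agent.UA.Leaf

/-!
Leaves of the case distinction on the small prime factors, evaluated in the kernel.
-/

namespace Pool.Agent.UA

theorem leaf1 : leafCheck 10000 3 1 224075 [15, 12, 8, 6, 4, 3, 2, 1] = true := by decide +kernel

theorem leaf2 : leafCheck 10000 35 3 175469 [14, 13, 12, 8, 7, 5, 4, 3, 0] = true := by decide +kernel

theorem leaf3 : leafCheck 10000 5 21 143465 [14, 12, 11, 10, 7, 6, 5, 1, 0] = true := by decide +kernel

end Pool.Agent.UA
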