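import Pool.Agent.UA.Arith
import Pool.Agent.UA.Leaf

/-!
A relatively prime unitary amicable pair gives a configuration.
-/

namespace Pool.Agent.UA

theorem usigma_one : usigma 1 = 1 := by
  rw [usigma_eq one_ne_zero, Nat.primeFactors_one, Finset.prod_empty]

theorem comp_dvd {n : ℕ} (hn : n ≠ 0) {p : ℕ} (hp : p ∈ n.primeFactors) :
    p ^ n.factorization p + 1 ∣ usigma n := by
  rw [usigma_eq hn, add_comm]
  exact Finset.dvd_prod_of_mem (fun p => 1 + p ^ n.factorization p) hp

theorem prod_comp {n : ℕ} (hn : n ≠ 0) :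
    (usigma n : ℝ) = n * ∏ p ∈ n.primeFactors, (1 + 1 / ((p ^ n.factorization p : ℕ) : ℝ)) := by
  rw [usigma_eq hn]
  have h1 : (n : ℝ) = ∏ p ∈ n.primeFactors, ((p ^ n.factorization p : ℕ) : ℝ) := by
    conv_lhs => rw [← part_all hn]
    unfold part
    push_cast
    rfl
  conv_rhs => rw [h1]
  rw [← Finset.prod_mul_distrib]
  push_cast
  refine Finset.prod_congr rfl fun p hp => ?_
  have : (p : ℝ) ≠ 0 := by
    have := (Nat.prime_of_mem_primeFactors hp).pos
    positivity
  field_simp
  ring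

theorem fact_left {m n : ℕ} (hm : m ≠ 0) (hn : n ≠ 0) (hc : Nat.Coprime m n) {p : ℕ}
    (hp : p ∈ m.primeFactors) : (m * n).factorization p = m.factorization p := by
  rw [Nat.factorization_mul hm hn, Finsupp.add_apply]
  have : n.factorization p = 0 := by
    refine Nat.factorization_eq_zero_of_not_dvd fun hpn => ?_
    have h := Nat.dvd_gcd (Nat.dvd_of_mem_primeFactors hp) hpn
    rw [hc] at h
    exact (Nat.prime_of_mem_primeFactors hp).one_lt.ne' (Nat.dvd_one.mp h)
  rw [this, add_zero]

theorem fact_right {m n : ℕ} (hm : m ≠ 0) (hn : n ≠ 0) (hc : Nat.Coprime m n) {p : ℕ}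
    (hp : p ∈ n.primeFactors) : (m * n).factorization p = n.factorization p := by
  rw [mul_comm]
  exact fact_left hn hm hc.symm hp

theorem pair_conf {m n : ℕ} (hm : 0 < m) (hn : 0 < n) (hne : m ≠ n) (h1 : usigma m = m + n)
    (h2 : usigma n = m + n) (hc : Nat.Coprime m n) :
    Conf (m * n).primeFactors (fun p => p ^ (m * n).factorization p) := by
  have hm0 : m ≠ 0 := hm.ne'
  have hn0 : n ≠ 0 := hn.ne'
  have hpf : (m * n).primeFactors = m.primeFactors ∪ n.primeFactors := Nat.primeFactors_mul hm0 hn0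
  -- no prime of `m * n` divides `m + n`
  have hnd : ∀ d, d.Prime → d ∣ m * n → ¬ d ∣ m + n := by
    intro d hd hdmn hds
    rcases (Nat.Prime.dvd_mul hd).mp hdmn with h | h
    · have h' : d ∣ n := (Nat.dvd_add_right h).mp hds
      have h3 := Nat.dvd_gcd h h'
      rw [hc] at h3
      exact hd.one_lt.ne' (Nat.dvd_one.mp h3)
    · have h' : d ∣ m := (Nat.dvd_add_left h).mp hds
      have h3 := Nat.dvd_gcd h' h
      rw [hc] at h3
      exact hd.one_lt.ne' (Nat.dvd_one.mp h3)
  -- every component plus one divides `m + n`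
  have hcd : ∀ p ∈ (m * n).primeFactors, p ^ (m * n).factorization p + 1 ∣ m + n := by
    intro p hp
    rw [hpf, Finset.mem_union] at hp
    rcases hp with hp | hp
    · rw [fact_left hm0 hn0 hc hp, ← h1]
      exact comp_dvd hm0 hp
    · rw [fact_right hm0 hn0 hc hp, ← h2]
      exact comp_dvd hn0 hp
  have hm1 : m ≠ 1 := by
    rintro rfl
    rw [usigma_one] at h1
    omega
  have hn1 : n ≠ 1 := by
    rintro rfl
    rw [usigma_one] at h2
    omega
  refine ⟨fun p hp => Nat.prime_of_mem_primeFactors hp, ?_, ?_, ?_, ?_⟩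
  · -- oddness
    intro h2mem
    have key : ∀ a b : ℕ, a ≠ 0 → b ≠ 0 → b ≠ 1 → Nat.Coprime a b → usigma b = m + n →
        (2 ∣ a → 2 ∣ m * n) → ¬ 2 ∣ a := by
      intro a b ha hb hb1 hab hs himp h2a
      obtain ⟨p, hp, hpb⟩ := Nat.exists_prime_and_dvd hb1
      have hpm : p ∈ b.primeFactors := Nat.mem_primeFactors.mpr ⟨hp, hpb, hb⟩
      have h3 : p ≠ 2 := by
        rintro rfl
        have h4 := Nat.dvd_gcd h2a hpb
        rw [hab] at h4
        exact absurd (Nat.dvd_one.mp h4) (by norm_num)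
      have hodd : Odd (p ^ b.factorization p) := (hp.odd_of_ne_two h3).pow
      have h5 : 2 ∣ p ^ b.factorization p + 1 := by
        obtain ⟨k, hk⟩ := hodd
        omega
      have h6 := h5.trans (comp_dvd hb hpm)
      rw [hs] at h6
      exact hnd 2 Nat.prime_two (himp h2a) h6
    have h2d := Nat.dvd_of_mem_primeFactors h2mem
    rcases (Nat.Prime.dvd_mul Nat.prime_two).mp h2d with h | h
    · exact key m n hm0 hn0 hn1 hc h2 (fun h => Dvd.dvd.mul_right h n) h
    · exact key n m hn0 hm0 hm1 hc.symm h1 (fun h => Dvd.dvd.mul_left h m) h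
  · intro p hp
    refine ⟨(m * n).factorization p, ?_, rfl⟩
    have := (Finsupp.mem_support_iff (f := (m * n).factorization) (a := p)).mp
      (by rw [Nat.support_factorization]; exact hp)
    omega
  · intro d hd p hp h
    exact hnd d (Nat.prime_of_mem_primeFactors hd) (Nat.dvd_of_mem_primeFactors hd)
      (h.trans (hcd p hp))
  · have e : ∏ p ∈ (m * n).primeFactors, (1 + 1 / ((p ^ (m * n).factorization p : ℕ) : ℝ)) =
        (∏ p ∈ m.primeFactors, (1 + 1 / ((p ^ m.factorization p : ℕ) : ℝ))) *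
        ∏ p ∈ n.primeFactors, (1 + 1 / ((p ^ n.factorization p : ℕ) : ℝ)) := by
      rw [hpf, Finset.prod_union (Nat.Coprime.disjoint_primeFactors hc)]
      congr 1
      · exact Finset.prod_congr rfl fun p hp => by rw [fact_left hm0 hn0 hc hp]
      · exact Finset.prod_congr rfl fun p hp => by rw [fact_right hm0 hn0 hc hp]
    rw [e]
    have em := prod_comp hm0
    have en := prod_comp hn0
    rw [h1] at em
    rw [h2] at en
    have hmR : (0 : ℝ) < m := by exact_mod_cast hm
    have hnR : (0 : ℝ) < n := by exact_mod_cast hn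
    have hneR : (m : ℝ) - n ≠ 0 := by
      rw [sub_ne_zero]
      exact_mod_cast hne
    have e3 : ((∏ p ∈ m.primeFactors, (1 + 1 / ((p ^ m.factorization p : ℕ) : ℝ))) *
        ∏ p ∈ n.primeFactors, (1 + 1 / ((p ^ n.factorization p : ℕ) : ℝ))) * (m * n) =
        ((m + n : ℕ) : ℝ) * ((m + n : ℕ) : ℝ) := by
      conv_rhs =>
        lhs
        rw [em]
      conv_rhs =>
        rhs
        rw [en]
      ring
    have hmn : (0 : ℝ) < m * n := mul_pos hmR hnR
    have hsq : 0 < ((m : ℝ) - n) ^ 2 := by positivity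
    have h4 : 4 * ((m : ℝ) * n) < ((m + n : ℕ) : ℝ) * ((m + n : ℕ) : ℝ) := by
      push_cast
      nlinarith
    rw [← e3] at h4
    exact lt_of_mul_lt_mul_right h4 hmn.le

end Pool.Agent.UA
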